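import Pool.Agent.H56N.Final
import Pool.Agent.H56N.PolyTime

/-!
# A polynomial-time Monte Carlo algorithm for nonrepetitive colourings with `O(Δ²)` colours
-/

set_option autoImplicit false

namespace Pool.Agent.Results.MP_0272f9_lc.MonteCarlo

open Pool.Agent.NPC Pool.Agent.NPC.H56N

theorem exists_polyTime : ∃ F : List Bool → List Bool, PolyTime F ∧
    ∀ x : Mat × List Bool, F (bits x) = bits (alg x) := by
  refine ⟨_, polyTime_opt (Poly.optMap (o := unbits (Mat × List Bool))
    (f := fun _ a => alg a) poly_unbits (P.alg.comp (Poly.snd Poly.id))), ?_⟩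
  intro x
  rw [unbits_bits]
  rfl

theorem le_prob {n N : ℕ} {P : List Bool → Prop}
    (h : (2 ^ n - 1) * 2 ^ N ≤ 2 ^ n * {r : List Bool | r.length = N ∧ P r}.ncard) :
    1 - 1 / 2 ^ n ≤ prob N P := by
  classical
  have h3 : {r : List Bool | r.length = N ∧ P r}.ncard ≤
      (Finset.univ.filter fun r : Fin N → Bool => P (List.ofFn r)).card := by
    refine le_trans ?_ (Finset.card_image_le (f := fun r : Fin N → Bool => List.ofFn r))
    rw [← Set.ncard_coe_finset]
    refine Set.ncard_le_ncard ?_ (Finset.finite_toSet _)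
    rintro r ⟨hr, hc⟩
    subst hr
    rw [Finset.mem_coe, Finset.mem_image]
    refine ⟨r.get, ?_, List.ofFn_get r⟩
    rw [Finset.mem_filter]
    refine ⟨Finset.mem_univ _, ?_⟩
    rw [List.ofFn_get]
    exact hc
  have h4 := h.trans (Nat.mul_le_mul_left _ h3)
  have h5 : (((2 ^ n - 1) * 2 ^ N : ℕ) : ℝ) ≤ ((2 ^ n * (Finset.univ.filter fun r : Fin N → Bool =>
    P (List.ofFn r)).card : ℕ) : ℝ) := Nat.cast_le.2 h4
  rw [Nat.cast_mul, Nat.cast_mul, Nat.cast_sub (Nat.one_le_two_pow)] at h5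
  push_cast at h5
  have h6 : (0 : ℝ) < 2 ^ n := by positivity
  have h7 : (1 - 1 / 2 ^ n : ℝ) * 2 ^ N = ((2 ^ n - 1) * 2 ^ N) / 2 ^ n := by
    field_simp
  have h8 : (1 - 1 / 2 ^ n : ℝ) * 2 ^ N ≤ ((Finset.univ.filter fun r : Fin N → Bool =>
      P (List.ofFn r)).card : ℝ) := by
    rw [h7, div_le_iff₀ h6, mul_comm _ ((2 : ℝ) ^ n)]
    exact h5
  unfold prob
  rw [le_div_iff₀ (by positivity)]
  refine h8.trans (le_of_eq ?_)
  congr!

/-- There are a constant `C`, a polynomial-time computable function `F` and a polynomial `m` such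
that for every graph `G` on the vertices `0, …, n - 1`, with probability at least `1 - 2 ^ (-n)`
over `m n` random bits `r`, the output of `F` on the input `(G, r)` is a nonrepetitive colouring of
`G` whose colours are smaller than `max 1 (C * Δ ^ 2)`, where `Δ` is the maximum degree of `G`. -/
theorem result : ∃ (C : ℕ) (F : List Bool → List Bool) (m : Polynomial ℕ), PolyTime F ∧
    ∀ (n : ℕ) (G : SimpleGraph (Fin n)) [DecidableRel G.Adj],
      1 - 1 / 2 ^ n ≤ prob (m.eval n) fun r => ∃ c : Fin n → ℕ,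
        F (bits (matrix G, r)) = bits (List.ofFn c) ∧ Nonrepetitive G c ∧
          ∀ v, c v < max 1 (C * G.maxDegree ^ 2) := by
  obtain ⟨F, hF, hFa⟩ := exists_polyTime
  refine ⟨128, F, rhoP, hF, ?_⟩
  intro n G _
  apply le_prob
  refine (main n G).trans (Nat.mul_le_mul_left _ (Set.ncard_le_ncard ?_ ?_))
  · rintro r ⟨hr, c, hc⟩
    refine ⟨hr, c, ?_, hc.2⟩
    rw [hFa, hc.1]
  · apply (List.finite_length_eq Bool (rhoP.eval n)).subset
    intro r hr
    exact hr.1

end Pool.Agent.Results.MP_0272f9_lc.MonteCarlo
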